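import Mathlib

set_option autoImplicit false

/-!
# Residual finiteness of `Out (A × B)`: definitions and statements of the jobs
-/

namespace Pool.Agent.K7.H41.OP

/-- residually finite groups -/
def RF (G : Type) [Group G] : Prop :=
  ∀ g : G, g ≠ 1 → ∃ N : Subgroup G, N.Normal ∧ N.FiniteIndex ∧ g ∉ N

/-- the inner automorphisms -/
def Inn (G : Type) [Group G] : Subgroup (MulAut G) := (MulAut.conj : G →* MulAut G).range

instance Inn.normal (G : Type) [Group G] : (Inn G).Normal := by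
  refine ⟨fun φ hφ ψ => ?_⟩
  obtain ⟨g, rfl⟩ := hφ
  refine ⟨ψ g, ?_⟩
  ext x
  simp [MulAut.conj_apply, MulAut.mul_apply, map_mul, map_inv]

/-- the outer automorphism group -/
abbrev Out (G : Type) [Group G] : Type := MulAut G ⧸ Inn G

/-- `φ` is separated from the inner automorphisms by a subgroup of finite index -/
def Sep (G : Type) [Group G] (φ : MulAut G) : Prop :=
  ∃ H : Subgroup (MulAut G), Inn G ≤ H ∧ H.FiniteIndex ∧ φ ∉ H

/-- `B / Z(B)` has only finitely many direct factors -/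
def DF (B : Type) [Group B] : Prop :=
  {D : Subgroup (B ⧸ Subgroup.center B) | D.Normal ∧
    ∃ D' : Subgroup (B ⧸ Subgroup.center B), D'.Normal ∧ IsCompl D D'}.Finite

/-- `x` is an `m`-th power modulo commutators -/
def Pm (G : Type) [Group G] (m : ℕ) (x : G) : Prop := ∃ y : G, x * (y ^ m)⁻¹ ∈ commutator G

/-- central homomorphisms -/
def Cen {G H : Type} [Group G] [Group H] (ρ : G →* H) : Prop := ∀ g, ρ g ∈ Subgroup.center H

/-- the component `A → A` of an automorphism -/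
def al {A B : Type} [Group A] [Group B] (φ : MulAut (A × B)) : A →* A :=
  (MonoidHom.fst A B).comp ((φ : A × B ≃* A × B).toMonoidHom.comp (MonoidHom.inl A B))

/-- the component `B → A` -/
def be {A B : Type} [Group A] [Group B] (φ : MulAut (A × B)) : B →* A :=
  (MonoidHom.fst A B).comp ((φ : A × B ≃* A × B).toMonoidHom.comp (MonoidHom.inr A B))

/-- the component `A → B` -/
def ga {A B : Type} [Group A] [Group B] (φ : MulAut (A × B)) : A →* B :=
  (MonoidHom.snd A B).comp ((φ : A × B ≃* A × B).toMonoidHom.comp (MonoidHom.inl A B))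

/-- the component `B → B` -/
def de {A B : Type} [Group A] [Group B] (φ : MulAut (A × B)) : B →* B :=
  (MonoidHom.snd A B).comp ((φ : A × B ≃* A × B).toMonoidHom.comp (MonoidHom.inr A B))

/-- the mixed components of `φ` and of its inverse are central -/
def Z0 {A B : Type} [Group A] [Group B] (φ : MulAut (A × B)) : Prop :=
  (Cen (be φ) ∧ Cen (ga φ)) ∧ (Cen (be φ⁻¹) ∧ Cen (ga φ⁻¹))

/-- the lattice `L` (of the image of the centre in the abelianization modulo torsion), written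
multiplicatively -/
abbrev L (n : ℕ) : Type := Multiplicative (Fin n → ℤ)

/-- lattice data of a finitely generated group -/
structure Lat (A : Type) [Group A] where
  n : ℕ
  c : ℕ
  t : ℕ
  hc : 0 < c
  ht : 0 < t
  s : L n →* A
  r : A →* L n
  sc : Cen s
  rs : ∀ v, r (s v) = v ^ c
  rc : ∀ w ∈ Subgroup.center A, ∃ v, r w = v ^ c
  tor : ∀ w ∈ Subgroup.center A, r w = 1 → w ^ t ∈ commutator A
  tf : ∀ x : A, Pm A t x → (∃ k : ℕ, 0 < k ∧ x ^ k ∈ commutator A) → x ∈ commutator A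

/-- `θ` acts trivially on the lattice -/
def Tr {A : Type} [Group A] (D : Lat A) (θ : MulAut A) : Prop :=
  ∀ w ∈ Subgroup.center A, D.r (θ w) = D.r w

/-- `K` contains all automorphisms `a ↦ a ρ(a) ^ m` with `ρ` central -/
def Big {A : Type} [Group A] (K : Subgroup (MulAut A)) (m : ℕ) : Prop :=
  ∀ (θ : MulAut A) (ρ : A →* A), Cen ρ → (∀ a, θ a = a * ρ a ^ m) → θ ∈ K

/-- JOB OUT -/
def StOut : Prop := ∀ (G : Type) [Group G], RF (Out G) ↔ ∀ φ : MulAut G, φ ∉ Inn G → Sep G φ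

/-- the automorphism of `B × A` that corresponds to `φ` -/
def sw {A B : Type} [Group A] [Group B] (φ : MulAut (A × B)) : MulAut (B × A) :=
  ((MulEquiv.prodComm : B × A ≃* A × B).trans (φ : A × B ≃* A × B)).trans
    (MulEquiv.prodComm : A × B ≃* B × A)

/-- JOB SWAP: exchanging the factors -/
def StSwap : Prop := ∀ (A B : Type) [Group A] [Group B],
  (∀ φ : MulAut (A × B), Sep (B × A) (sw φ) → Sep (A × B) φ) ∧
  ((∀ H0 : Subgroup (MulAut (A × B)), (∀ φ, φ ∈ H0 ↔ Z0 φ) → H0.FiniteIndex) →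
    ∀ H0 : Subgroup (MulAut (B × A)), (∀ φ, φ ∈ H0 ↔ Z0 φ) → H0.FiniteIndex)

/-- JOB HS: the automorphisms which act on the homomorphisms to a finite group by conjugation -/
def StHS : Prop := ∀ (G : Type) [Group G], Group.FG G → ∀ (S : Type) [Group S] [Finite S],
  ∃ H : Subgroup (MulAut G), H.FiniteIndex ∧ Inn G ≤ H ∧
    ∀ φ ∈ H, ∀ f : G →* S, ∃ s : S, ∀ g, f (φ g) = s * f g * s⁻¹

/-- JOB MOD: the automorphisms which are trivial modulo `m` on the abelianization -/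
def StMod : Prop := ∀ (G : Type) [Group G], Group.FG G → ∀ m : ℕ, 0 < m →
  ∃ H : Subgroup (MulAut G), H.FiniteIndex ∧ Inn G ≤ H ∧ ∀ φ, φ ∈ H ↔ ∀ g, Pm G m (φ g * g⁻¹)

/-- JOB LAT: lattice data exist -/
def StLat : Prop := ∀ (A : Type) [Group A], Group.FG A → Nonempty (Lat A)

/-- JOB JX: the subgroup `K₁ = (K₀ ∩ Aut²) · {j_X}`, where `Aut²` is the group of the automorphisms
that act trivially on the lattice and `j_X (a) = a s(X(r(a)))` -/
def StJ : Prop := ∀ (A : Type) [Group A], Group.FG A → ∀ (D : Lat A) (K0 : Subgroup (MulAut A)),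
  K0.Normal → K0.FiniteIndex → Inn A ≤ K0 →
    ∃ K1 : Subgroup (MulAut A), K1.FiniteIndex ∧ Inn A ≤ K1 ∧
      (∀ θ ∈ K1, Tr D θ → θ ∈ K0) ∧ (∀ θ ∈ K0, Tr D θ → θ ∈ K1) ∧
      (∀ (θ : MulAut A) (X : L D.n →* L D.n), (∀ a, θ a = a * D.s (X (D.r a))) → θ ∈ K1)

/-- JOB POW: the power trick -/
def StPow : Prop := ∀ (A : Type) [Group A] (E : ℕ) (x : A →* A), 0 < E → Cen x →
  (∀ a, x (x (x a)) = 1) → ∀ θ : MulAut A, (∀ a, θ a = a * x a ^ (2 * E)) →
    ∃ μ ν : MulAut A, θ = μ ^ E * ν ^ E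

/-- JOB KEY (assume `StOut`, `StJ`, `StPow`) -/
def StKey : Prop := ∀ (A : Type) [Group A], Group.FG A → RF (Out A) → ∀ (_ : Lat A) (α : MulAut A),
  α ∉ Inn A → (∀ a, α a * a⁻¹ ∈ commutator A) →
    ∃ (K : Subgroup (MulAut A)) (m : ℕ), 0 < m ∧ K.Normal ∧ K.FiniteIndex ∧ Inn A ≤ K ∧ α ∉ K ∧ Big K m

/-- JOB BIJ: the component `A → A` is an automorphism times an `m`-th power of a central
homomorphism -/
def StBij : Prop := ∀ (A B : Type) [Group A] [Group B] (D : Lat A) (m : ℕ), 0 < m →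
  ∀ φ : MulAut (A × B), Z0 φ → (∀ a, Pm A (D.c ^ 2 * m * D.t) (al φ a * a⁻¹)) →
    ∃ (k : MulAut A) (ρ : A →* A), Cen ρ ∧ ∀ a, al φ a = k (a * ρ a ^ m)

/-- JOB DIV -/
def StDiv : Prop := ∀ (B : Type) [Group B], Group.FG B → ∃ t : ℕ, 0 < t ∧ ∀ m : ℕ, t ∣ m → 0 < m →
  ∀ (A : Type) [Group A] (γ : A →* B) (β : B →* A), (∀ a, Pm B m (γ a)) → Cen β →
    ∃ ρ : A →* A, Cen ρ ∧ ∀ a, β (γ a) = ρ a ^ m

/-- JOB EXT (assume `StBij`, `StDiv`, `StMod`) -/
def StExt : Prop := ∀ (A B : Type) [Group A] [Group B], Group.FG A → Group.FG B →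
  ∀ (_ : Lat A) (K : Subgroup (MulAut A)) (m : ℕ), 0 < m → K.Normal → K.FiniteIndex → Inn A ≤ K →
    Big K m → ∀ H0 : Subgroup (MulAut (A × B)), (∀ φ, φ ∈ H0 ↔ Z0 φ) → H0.FiniteIndex →
      ∃ H : Subgroup (MulAut (A × B)), Inn (A × B) ≤ H ∧ H.FiniteIndex ∧
        ∀ (α : MulAut A) (δ : MulAut B), (MulEquiv.prodCongr α δ : MulAut (A × B)) ∈ H → α ∈ K

/-- JOB SUB -/
def StSub : Prop := ∀ (A B : Type) [Group A] [Group B],
  ∃ H : Subgroup (MulAut (A × B)), (∀ φ, φ ∈ H ↔ Z0 φ) ∧ Inn (A × B) ≤ H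

/-- JOB FAC: an automorphism of `A × B` gives complementary direct factors of `B / Z(B)` -/
def StFac : Prop := ∀ (A B : Type) [Group A] [Group B] (φ : MulAut (A × B)),
  ∃ E F : Subgroup B, (∀ b, b ∈ E ↔ be φ b ∈ Subgroup.center A) ∧
    (∀ b, b ∈ F ↔ de φ b ∈ Subgroup.center B) ∧ E.Normal ∧ F.Normal ∧
    E ⊓ F = Subgroup.center B ∧ E ⊔ F = ⊤ ∧ (E = ⊤ → Cen (ga φ⁻¹))

/-- JOB RFC: `B / Z(B)` is residually finite -/
def StRfc : Prop := ∀ (B : Type) [Group B], RF B → ∀ b : B, b ∉ Subgroup.center B →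
  ∃ N : Subgroup B, N.Normal ∧ N.FiniteIndex ∧ Subgroup.center B ≤ N ∧ b ∉ N

/-- JOB ORB (assume `StFac`, `StRfc`) -/
def StOrb : Prop := ∀ (A B : Type) [Group A] [Group B], Group.FG A → Group.FG B → RF B → DF B →
  ∀ H0 : Subgroup (MulAut (A × B)), (∀ φ, φ ∈ H0 ↔ Z0 φ) → H0.FiniteIndex

/-- JOB FIN (assume all of the above): the theorem -/
def StFin : Prop := ∀ (A B : Type) [Group A] [Group B], Group.FG A → Group.FG B → RF A → RF B →
  RF (Out A) → RF (Out B) →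
    (∀ H0 : Subgroup (MulAut (A × B)), (∀ φ, φ ∈ H0 ↔ Z0 φ) → H0.FiniteIndex) → RF (Out (A × B))

end Pool.Agent.K7.H41.OP
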