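import Pool.Agent.K7.H41.OP.ISO2
import Pool.Agent.K7.H10.OP.JX
import Pool.Agent.K7.H11.OP.OUT
import Pool.Agent.K7.H3.OP.DIV
import Pool.Agent.K7.H35.OP.HS
import Pool.Agent.K7.H42.OP.FAC
import Pool.Agent.K7.H45.OP.EXT
import Pool.Agent.K7.H45.OP.POW
import Pool.Agent.K7.H61.OP.SUB
import Pool.Agent.K7.H77.OP.BIJ
import Pool.Agent.K7.H90.OP.LAT
import Pool.Agent.K7.H99.OP.KEY

set_option autoImplicit false

/-!
# Project OP: the theorem
-/

namespace Pool.Agent.K7.H41.OP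

theorem thm (A B : Type) [Group A] [Group B] (hA : Group.FG A) (hB : Group.FG B) (rA : RF A)
    (rB : RF B) (oA : RF (Out A)) (oB : RF (Out B)) (h : CF2 A B ∨ CF2 B A) : RF (Out (A × B)) :=
  main2 H11.OP.out H11.OP.swap H35.OP.hs H35.OP.mod H90.OPLAT.stLat
    (H99.OP.key H11.OP.out H10.OP.JX.t H45.OP.pow)
    (H45.OP.ext H77.OPBIJ.t H3.OP.div H35.OP.mod)
    H61.OP.sub H42.OP.stFac H61.OP.rfc A B hA hB rA rB oA oB h

end Pool.Agent.K7.H41.OP
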