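import Pool.Agent.K7.H41.OP.Stm

set_option autoImplicit false

/-!
# Project OP, job FIN
-/

namespace Pool.Agent.K7.H41.OP

/-- finitely generated abelian groups are residually finite -/
theorem rfa (A : Type) [Group A] (hA : Group.FG A) (x : A) (hx : x ∉ commutator A) :
    ∃ m : ℕ, 0 < m ∧ ¬ Pm A m x := by
  classical
  have : Group.FG (Abelianization A) := inferInstanceAs (Group.FG (A ⧸ commutator A))
  obtain ⟨ι, j, _, _, p, hp, ex, ⟨e⟩⟩ :=
    CommGroup.equiv_free_prod_prod_multiplicative_zmod (Abelianization A)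
  set q : A →* Abelianization A := Abelianization.of with hq
  set N : ℕ := ∑ i, (Multiplicative.toAdd ((e (q x)).1 i)).natAbs with hN
  refine ⟨(∏ i, p i ^ ex i) * (1 + N), Nat.mul_pos (Finset.prod_pos fun i _ =>
    pow_pos (hp i).pos _) (by omega), ?_⟩
  rintro ⟨y, hy⟩
  set m : ℕ := (∏ i, p i ^ ex i) * (1 + N) with hm
  have hP : 0 < ∏ i, p i ^ ex i := Finset.prod_pos fun i _ => pow_pos (hp i).pos _
  have h1 : q (x * (y ^ m)⁻¹) = 1 := (QuotientGroup.eq_one_iff _).2 hy
  rw [map_mul, map_inv, mul_inv_eq_one, map_pow] at h1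
  have h2 : e (q x) = 1 := by
    have h3 : e (q x) = e (q y) ^ m := by
      conv_lhs => rw [h1]
      rw [map_pow]
    ext i
    · -- free part
      have h4 : Multiplicative.toAdd ((e (q x)).1 i) = (m : ℤ) * Multiplicative.toAdd ((e (q y)).1 i) := by
        rw [h3]
        simp [Prod.pow_fst]
      have h5 : (Multiplicative.toAdd ((e (q x)).1 i)).natAbs ≤ N :=
        Finset.single_le_sum (f := fun i => (Multiplicative.toAdd ((e (q x)).1 i)).natAbs)
          (fun _ _ => Nat.zero_le _) (Finset.mem_univ i)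
      have h6 : N < m := by
        calc N < 1 * (1 + N) := by omega
          _ ≤ _ := Nat.mul_le_mul_right _ hP
      have h7 : Multiplicative.toAdd ((e (q x)).1 i) = 0 := by
        by_contra h8
        have h9 : (Multiplicative.toAdd ((e (q y)).1 i)) ≠ 0 := by
          intro h10
          rw [h10, mul_zero] at h4
          exact h8 h4
        have h10 : (Multiplicative.toAdd ((e (q x)).1 i)).natAbs =
            m * (Multiplicative.toAdd ((e (q y)).1 i)).natAbs := by
          rw [h4, Int.natAbs_mul, Int.natAbs_natCast]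
        have h11 : 1 ≤ (Multiplicative.toAdd ((e (q y)).1 i)).natAbs := by
          have := Int.natAbs_pos.2 h9
          omega
        have h12 : m * 1 ≤ m * (Multiplicative.toAdd ((e (q y)).1 i)).natAbs := Nat.mul_le_mul_left _ h11
        omega
      exact h7
    · rename_i i
      have h4 : (e (q x)).2 i = ((e (q y)).2 i) ^ m := by
        rw [h3]
        simp [Prod.pow_snd]
      obtain ⟨d, hd⟩ : p i ^ ex i ∣ m := (Finset.dvd_prod_of_mem _ (Finset.mem_univ i)).mul_right _
      rw [h4, hd]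
      show Multiplicative.toAdd (((e (q y)).2 i) ^ (p i ^ ex i * d)) = 0
      rw [toAdd_pow, mul_nsmul, nsmul_eq_mul (p i ^ ex i), ZMod.natCast_self, zero_mul, smul_zero]
  have h3 : q x = 1 := e.injective (by rw [h2, map_one])
  exact hx ((QuotientGroup.eq_one_iff _).1 h3)

theorem fg_prod {A B : Type} [Group A] [Group B] (hA : Group.FG A) (hB : Group.FG B) :
    Group.FG (A × B) := by
  have := Subgroup.FG.prod hA.out hB.out
  rw [Subgroup.top_prod_top] at this
  exact ⟨this⟩

theorem sepA (hKey : StKey) (hExt : StExt) (hMod : StMod) (hLat : StLat)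
    (A B : Type) [Group A] [Group B] (fA : Group.FG A) (fB : Group.FG B) (oA : RF (Out A))
    (H0 : Subgroup (MulAut (A × B))) (hH0 : ∀ φ, φ ∈ H0 ↔ Z0 φ) (fi : H0.FiniteIndex)
    (α : MulAut A) (δ : MulAut B) (hα : α ∉ Inn A) :
    Sep (A × B) (MulEquiv.prodCongr α δ : MulAut (A × B)) := by
  obtain ⟨D⟩ := hLat A fA
  by_cases h : ∀ a, α a * a⁻¹ ∈ commutator A
  · obtain ⟨K, m, hm, h1, h2, h3, h4, h5⟩ := hKey A fA oA D α hα h
    obtain ⟨H, h6, h7, h8⟩ := hExt A B fA fB D K m hm h1 h2 h3 h5 H0 hH0 fi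
    exact ⟨H, h6, h7, fun h9 => h4 (h8 α δ h9)⟩
  · push Not at h
    obtain ⟨a, ha⟩ := h
    obtain ⟨m, hm, h1⟩ := rfa A fA _ ha
    obtain ⟨H, h2, h3, h4⟩ := hMod (A × B) (fg_prod fA fB) m hm
    refine ⟨H, h3, h2, fun h5 => h1 ?_⟩
    obtain ⟨y, hy⟩ := (h4 _).1 h5 (a, 1)
    refine ⟨y.1, ?_⟩
    have h6 : MonoidHom.fst A B ((MulEquiv.prodCongr α δ : MulAut (A × B)) (a, 1) * (a, 1)⁻¹ * (y ^ m)⁻¹) ∈
        commutator A := by
      have h7 : (commutator (A × B)).map (MonoidHom.fst A B) ≤ commutator A := by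
        rw [commutator_def, Subgroup.map_commutator]
        exact Subgroup.commutator_mono le_top le_top
      exact h7 ⟨_, hy, rfl⟩
    exact h6

theorem comp {A B : Type} [Group A] [Group B] (φ : MulAut (A × B)) (a : A) (b : B) :
    φ (a, b) = (al φ a * be φ b, ga φ a * de φ b) := by
  have h : ((a, b) : A × B) = (a, 1) * (1, b) := by simp
  conv_lhs => rw [h, map_mul]
  rfl

theorem fin (hOut : StOut) (hSwap : StSwap) (hHS : StHS) (hMod : StMod) (hLat : StLat)
    (hKey : StKey) (hExt : StExt) (hSub : StSub) : StFin := by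
  intro A B _ _ fA fB rA rB oA oB h0
  rw [hOut (A × B)]
  intro φ hφ
  obtain ⟨H0, hH0, hI⟩ := hSub A B
  have fi := h0 H0 hH0
  have fAB := fg_prod fA fB
  by_cases hbe : ∃ b, be φ b ≠ 1
  · obtain ⟨b, hb⟩ := hbe
    obtain ⟨N, h1, h2, h3⟩ := rA _ hb
    have := h1
    have := h2
    have : Finite (A ⧸ N) := Subgroup.finite_quotient_of_finiteIndex
    obtain ⟨H, h4, h5, h6⟩ := hHS (A × B) fAB (A ⧸ N)
    refine ⟨H, h5, h4, fun h7 => ?_⟩
    obtain ⟨s, hs⟩ := h6 φ h7 ((QuotientGroup.mk' N).comp (MonoidHom.fst A B))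
    have h8 := hs (1, b)
    have h9 : ((QuotientGroup.mk' N).comp (MonoidHom.fst A B)) (φ (1, b)) = QuotientGroup.mk' N (be φ b) := rfl
    rw [h9] at h8
    have h10 : ((QuotientGroup.mk' N).comp (MonoidHom.fst A B)) ((1, b) : A × B) = 1 := by
      show QuotientGroup.mk' N 1 = 1
      exact map_one _
    rw [h10, mul_one, mul_inv_cancel] at h8
    exact h3 ((QuotientGroup.eq_one_iff _).1 h8)
  by_cases hga : ∃ a, ga φ a ≠ 1
  · obtain ⟨a, ha⟩ := hga
    obtain ⟨N, h1, h2, h3⟩ := rB _ ha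
    have := h1
    have := h2
    have : Finite (B ⧸ N) := Subgroup.finite_quotient_of_finiteIndex
    obtain ⟨H, h4, h5, h6⟩ := hHS (A × B) fAB (B ⧸ N)
    refine ⟨H, h5, h4, fun h7 => ?_⟩
    obtain ⟨s, hs⟩ := h6 φ h7 ((QuotientGroup.mk' N).comp (MonoidHom.snd A B))
    have h8 := hs (a, 1)
    have h9 : ((QuotientGroup.mk' N).comp (MonoidHom.snd A B)) (φ (a, 1)) = QuotientGroup.mk' N (ga φ a) := rfl
    rw [h9] at h8
    have h10 : ((QuotientGroup.mk' N).comp (MonoidHom.snd A B)) ((a, 1) : A × B) = 1 := by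
      show QuotientGroup.mk' N 1 = 1
      exact map_one _
    rw [h10, mul_one, mul_inv_cancel] at h8
    exact h3 ((QuotientGroup.eq_one_iff _).1 h8)
  push Not at hbe hga
  have hc : ∀ a b, φ (a, b) = (al φ a, de φ b) := by
    intro a b
    rw [comp, hbe, hga, mul_one, one_mul]
  have bα : Function.Bijective (al φ) := by
    constructor
    · rw [injective_iff_map_eq_one]
      intro a ha
      have h1 : φ (a, 1) = 1 := by
        rw [hc, ha, map_one]
        rfl
      have h2 := (map_eq_one_iff φ φ.injective).1 h1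
      exact congrArg Prod.fst h2
    · intro a
      obtain ⟨⟨x, y⟩, hxy⟩ := φ.surjective (a, 1)
      rw [hc] at hxy
      exact ⟨x, congrArg Prod.fst hxy⟩
  have bδ : Function.Bijective (de φ) := by
    constructor
    · rw [injective_iff_map_eq_one]
      intro b hb
      have h1 : φ (1, b) = 1 := by
        rw [hc, hb, map_one]
        rfl
      have h2 := (map_eq_one_iff φ φ.injective).1 h1
      exact congrArg Prod.snd h2
    · intro b
      obtain ⟨⟨x, y⟩, hxy⟩ := φ.surjective (1, b)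
      rw [hc] at hxy
      exact ⟨y, congrArg Prod.snd hxy⟩
  set α : MulAut A := MulEquiv.ofBijective (al φ) bα with hαd
  set δ : MulAut B := MulEquiv.ofBijective (de φ) bδ with hδd
  have hφe : φ = (MulEquiv.prodCongr α δ : MulAut (A × B)) := by
    apply MulEquiv.ext
    rintro ⟨a, b⟩
    rw [hc]
    rfl
  by_cases hα : α ∈ Inn A
  · have hδ : δ ∉ Inn B := by
      rintro ⟨b, hb⟩
      obtain ⟨a, ha⟩ := hα
      apply hφ
      refine ⟨(a, b), ?_⟩
      rw [hφe, ← ha, ← hb]
      apply MulEquiv.ext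
      rintro ⟨x, y⟩
      rfl
    obtain ⟨H0', hH0', hI'⟩ := hSub B A
    have fi' := (hSwap A B).2 h0 H0' hH0'
    have h1 := sepA hKey hExt hMod hLat B A fB fA oB H0' hH0' fi' δ α hδ
    apply (hSwap A B).1
    have h2 : sw φ = (MulEquiv.prodCongr δ α : MulAut (B × A)) := by
      rw [hφe]
      apply MulEquiv.ext
      rintro ⟨x, y⟩
      rfl
    rw [h2]
    exact h1
  · rw [hφe]
    exact sepA hKey hExt hMod hLat A B fA fB oA H0 hH0 fi α δ hα

end Pool.Agent.K7.H41.OP
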