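import Pool.Agent.K7.H41.OP.FIN

set_option autoImplicit false

/-!
# Project OP: the direct factors of `B / Z(B)` that are isomorphic to direct factors of `A / Z(A)`
-/

namespace Pool.Agent.K7.H41.OP

/-- `D` is a direct factor of the group `G` -/
def IsFactor (G : Type) [Group G] (D : Subgroup G) : Prop :=
  D.Normal ∧ ∃ D' : Subgroup G, D'.Normal ∧ IsCompl D D'

/-- only finitely many direct factors of `B / Z(B)` are isomorphic to direct factors of `A / Z(A)` -/
def CF (A B : Type) [Group A] [Group B] : Prop :=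
  {D : Subgroup (B ⧸ Subgroup.center B) | IsFactor _ D ∧
    ∃ D1 : Subgroup (A ⧸ Subgroup.center A), IsFactor _ D1 ∧ Nonempty (D ≃* D1)}.Finite

theorem cen_iff {A B : Type} [Group A] [Group B] (x : A × B) :
    x ∈ Subgroup.center (A × B) ↔ x.1 ∈ Subgroup.center A ∧ x.2 ∈ Subgroup.center B := by
  simp only [Subgroup.mem_center_iff]
  constructor
  · intro h
    exact ⟨fun g => congrArg Prod.fst (h (g, 1)), fun g => congrArg Prod.snd (h (1, g))⟩
  · rintro ⟨h1, h2⟩ g
    exact Prod.ext (h1 g.1) (h2 g.2)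

theorem cen_map {G : Type} [Group G] (φ : MulAut G) {x : G} (hx : x ∈ Subgroup.center G) :
    φ x ∈ Subgroup.center G := by
  rw [Subgroup.mem_center_iff] at hx ⊢
  intro g
  obtain ⟨h, rfl⟩ := φ.surjective g
  rw [← map_mul, ← map_mul, hx]

theorem cen_al {A B : Type} [Group A] [Group B] (φ : MulAut (A × B)) {a : A}
    (ha : a ∈ Subgroup.center A) : al φ a ∈ Subgroup.center A :=
  ((cen_iff _).1 (cen_map φ ((cen_iff (a, (1 : B))).2 ⟨ha, Subgroup.one_mem _⟩))).1

theorem cen_ga {A B : Type} [Group A] [Group B] (φ : MulAut (A × B)) {a : A}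
    (ha : a ∈ Subgroup.center A) : ga φ a ∈ Subgroup.center B :=
  ((cen_iff _).1 (cen_map φ ((cen_iff (a, (1 : B))).2 ⟨ha, Subgroup.one_mem _⟩))).2

theorem cen_be {A B : Type} [Group A] [Group B] (φ : MulAut (A × B)) {b : B}
    (hb : b ∈ Subgroup.center B) : be φ b ∈ Subgroup.center A :=
  ((cen_iff _).1 (cen_map φ ((cen_iff ((1 : A), b)).2 ⟨Subgroup.one_mem _, hb⟩))).1

theorem cen_de {A B : Type} [Group A] [Group B] (φ : MulAut (A × B)) {b : B}
    (hb : b ∈ Subgroup.center B) : de φ b ∈ Subgroup.center B :=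
  ((cen_iff _).1 (cen_map φ ((cen_iff ((1 : A), b)).2 ⟨Subgroup.one_mem _, hb⟩))).2

/-- the factor of `B / Z(B)` that goes to `A / Z(A)`, and its image, are isomorphic -/
theorem iso {A B : Type} [Group A] [Group B] (φ : MulAut (A × B)) (F : Subgroup B) (F' : Subgroup A)
    (hF : ∀ b, b ∈ F ↔ de φ b ∈ Subgroup.center B) (hF' : ∀ a, a ∈ F' ↔ al φ⁻¹ a ∈ Subgroup.center A) :
    Nonempty (F.map (QuotientGroup.mk' (Subgroup.center B)) ≃*
      F'.map (QuotientGroup.mk' (Subgroup.center A))) := by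
  set g0 : B ⧸ Subgroup.center B →* A ⧸ Subgroup.center A :=
    QuotientGroup.map (Subgroup.center B) (Subgroup.center A) (be φ) (fun b hb => cen_be φ hb) with hg0
  have e0 : ∀ b : B, g0 (QuotientGroup.mk' _ b) = QuotientGroup.mk' _ (be φ b) := fun b => rfl
  set D : Subgroup (B ⧸ Subgroup.center B) := F.map (QuotientGroup.mk' (Subgroup.center B)) with hD
  set D' : Subgroup (A ⧸ Subgroup.center A) := F'.map (QuotientGroup.mk' (Subgroup.center A)) with hD'
  set g : D →* A ⧸ Subgroup.center A := g0.comp D.subtype with hg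
  have hinj : Function.Injective g := by
    rw [injective_iff_map_eq_one]
    rintro ⟨d, b, hb, rfl⟩ h
    have h1 : QuotientGroup.mk' (Subgroup.center A) (be φ b) = 1 := h
    have h2 : be φ b ∈ Subgroup.center A := (QuotientGroup.eq_one_iff _).1 h1
    have h3 : φ (1, b) ∈ Subgroup.center (A × B) := (cen_iff _).2 ⟨h2, (hF b).1 hb⟩
    have h4 := cen_map φ⁻¹ h3
    rw [MulAut.inv_apply_self] at h4
    have h5 : b ∈ Subgroup.center B := ((cen_iff _).1 h4).2
    exact Subtype.ext ((QuotientGroup.eq_one_iff _).2 h5)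
  have hran : g.range = D' := by
    ext x
    constructor
    · rintro ⟨⟨d, b, hb, rfl⟩, rfl⟩
      refine ⟨be φ b, ?_, rfl⟩
      show be φ b ∈ F'
      rw [hF']
      have h1 : φ⁻¹ (be φ b, de φ b) = (1, b) := by
        have h2 : φ (1, b) = (be φ b, de φ b) := rfl
        rw [← h2, MulAut.inv_apply_self]
      rw [comp] at h1
      have h3 : al φ⁻¹ (be φ b) * be φ⁻¹ (de φ b) = 1 := congrArg Prod.fst h1
      rw [mul_eq_one_iff_eq_inv] at h3
      rw [h3]
      exact Subgroup.inv_mem _ (cen_be _ ((hF b).1 hb))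
    · rintro ⟨a, ha, rfl⟩
      have ha' := (hF' a).1 ha
      have h1 : φ (al φ⁻¹ a, ga φ⁻¹ a) = (a, 1) := by
        have h2 : φ⁻¹ (a, 1) = (al φ⁻¹ a, ga φ⁻¹ a) := rfl
        rw [← h2, MulAut.apply_inv_self]
      rw [comp] at h1
      have h3 : al φ (al φ⁻¹ a) * be φ (ga φ⁻¹ a) = a := congrArg Prod.fst h1
      have h4 : ga φ (al φ⁻¹ a) * de φ (ga φ⁻¹ a) = 1 := congrArg Prod.snd h1
      have h5 : ga φ⁻¹ a ∈ F := by
        rw [hF, ← inv_mem_iff, ← mul_eq_one_iff_eq_inv.1 h4]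
        exact cen_ga _ ha'
      refine ⟨⟨_, ga φ⁻¹ a, h5, rfl⟩, ?_⟩
      show QuotientGroup.mk' (Subgroup.center A) (be φ (ga φ⁻¹ a)) = QuotientGroup.mk' (Subgroup.center A) a
      conv_rhs => rw [← h3, map_mul]
      have h6 : QuotientGroup.mk' (Subgroup.center A) (al φ (al φ⁻¹ a)) = 1 :=
        (QuotientGroup.eq_one_iff _).2 (cen_al _ ha')
      rw [h6, one_mul]
  exact ⟨(MonoidHom.ofInjective hinj).trans (MulEquiv.subgroupCongr hran)⟩

/-- complementary subgroups above the centre give direct factors -/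
theorem isFactor_map {B : Type} [Group B] (E F : Subgroup B) (hE : E.Normal) (hF : F.Normal)
    (h1 : E ⊓ F = Subgroup.center B) (h2 : E ⊔ F = ⊤) :
    IsFactor _ (F.map (QuotientGroup.mk' (Subgroup.center B))) := by
  have hs : Function.Surjective (QuotientGroup.mk' (Subgroup.center B)) := QuotientGroup.mk'_surjective _
  refine ⟨hF.map _ hs, E.map _, hE.map _ hs, ?_⟩
  constructor
  · rw [disjoint_iff, eq_bot_iff]
    rintro x ⟨⟨f, hf, rfl⟩, ⟨e, he, hef⟩⟩
    have h3 : e⁻¹ * f ∈ Subgroup.center B := by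
      rw [← QuotientGroup.eq_one_iff]
      show QuotientGroup.mk' (Subgroup.center B) (e⁻¹ * f) = 1
      rw [map_mul, map_inv, hef, inv_mul_cancel]
    have h4 : f ∈ E := by
      have h5 : e * (e⁻¹ * f) ∈ E := E.mul_mem he ((h1.ge.trans inf_le_left) h3)
      rwa [mul_inv_cancel_left] at h5
    have h5 : f ∈ Subgroup.center B := by
      rw [← h1]
      exact ⟨h4, hf⟩
    exact (QuotientGroup.eq_one_iff _).2 h5
  · rw [codisjoint_iff, sup_comm, ← Subgroup.map_sup, h2, ← MonoidHom.range_eq_map,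
      MonoidHom.range_eq_top.2 hs]

/-- only finitely many subgroups `F_φ` -/
theorem factor_mem (hFac : StFac) {A B : Type} [Group A] [Group B] (φ : MulAut (A × B)) :
    ∃ E F : Subgroup B, (∀ b, b ∈ E ↔ be φ b ∈ Subgroup.center A) ∧
    (∀ b, b ∈ F ↔ de φ b ∈ Subgroup.center B) ∧ E.Normal ∧ F.Normal ∧
    E ⊓ F = Subgroup.center B ∧ E ⊔ F = ⊤ ∧ (E = ⊤ → Cen (ga φ⁻¹)) ∧
    F.map (QuotientGroup.mk' (Subgroup.center B)) ∈
      {D : Subgroup (B ⧸ Subgroup.center B) | IsFactor _ D ∧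
        ∃ D1 : Subgroup (A ⧸ Subgroup.center A), IsFactor _ D1 ∧ Nonempty (D ≃* D1)} := by
  obtain ⟨E, F, h1, h2, h3, h4, h5, h6, h7⟩ := hFac A B φ
  obtain ⟨E', F', k1, k2, k3, k4, k5, k6, k7⟩ := hFac B A (sw φ⁻¹)
  refine ⟨E, F, h1, h2, h3, h4, h5, h6, h7, isFactor_map E F h3 h4 h5 h6,
    F'.map (QuotientGroup.mk' (Subgroup.center A)), isFactor_map E' F' k3 k4 k5 k6,
    iso φ F F' h2 fun a => ?_⟩
  rw [k2]
  exact Iff.rfl

end Pool.Agent.K7.H41.OP
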