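import Mathlib

set_option autoImplicit false

/-!
# Project OP: central factors, the finiteness criterion
-/

namespace Pool.Agent.K7.H41.OP

/-- `F` is a central factor of `B` -/
def CFac (B : Type) [Group B] (F : Subgroup B) : Prop :=
  Subgroup.center B ≤ F ∧ ∃ E : Subgroup B, Subgroup.center B ≤ E ∧ E ⊔ F = ⊤ ∧
    (∀ e ∈ E, ∀ f ∈ F, e * f = f * e) ∧ ⁅E, E⁆ ⊓ ⁅F, F⁆ = ⊥

/-- the minimal condition on centralizers -/
def MinC (B : Type) [Group B] : Prop :=
  ¬ ∃ f : ℕ → Subgroup B, (∀ n, ∃ S : Set B, f n = Subgroup.centralizer S) ∧ StrictAnti f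

/-- JOB DCC: `E = C(F)`; if `E F = E' F' = B` are two such decompositions then `F' = (F' ⊓ E) (F' ⊓ F)` -/
def StDcc : Prop := ∀ (B : Type) [Group B], MinC B → {F : Subgroup B | CFac B F}.Finite

end Pool.Agent.K7.H41.OP
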