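import Pool.Agent.K7.H41.OP.ORB2
import Pool.Agent.K7.H41.OP.Stm2

set_option autoImplicit false

/-!
# Project OP: central factors
-/

namespace Pool.Agent.K7.H41.OP

open Pool.Agent.K7.H61.OP

/-- only finitely many central factors of `B` are, modulo the centre, isomorphic to central factors
of `A` -/
def CF2 (A B : Type) [Group A] [Group B] : Prop :=
  {F : Subgroup B | CFac B F ∧ ∃ F1 : Subgroup A, CFac A F1 ∧
    Nonempty (F.map (QuotientGroup.mk' (Subgroup.center B)) ≃*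
      F1.map (QuotientGroup.mk' (Subgroup.center A)))}.Finite

theorem comm_one {G H : Type} [Group G] [Group H] (f : G →* H) (E : Subgroup G)
    (h : ∀ e ∈ E, f e ∈ Subgroup.center H) {x : G} (hx : x ∈ ⁅E, E⁆) : f x = 1 := by
  have h1 : (⁅E, E⁆).map f ≤ ⊥ := by
    rw [Subgroup.map_commutator, le_bot_iff, Subgroup.commutator_eq_bot_iff_le_centralizer]
    rintro _ ⟨e, he, rfl⟩
    exact Subgroup.center_le_centralizer _ (h e he)
  exact Subgroup.mem_bot.1 (h1 ⟨x, hx, rfl⟩)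

theorem cfac_of {A B : Type} [Group A] [Group B] (φ : MulAut (A × B)) (E F : Subgroup B)
    (hE : ∀ b, b ∈ E ↔ be φ b ∈ Subgroup.center A) (hF : ∀ b, b ∈ F ↔ de φ b ∈ Subgroup.center B)
    (h2 : E ⊔ F = ⊤) : CFac B F := by
  refine ⟨fun b hb => (hF b).2 (cen_de φ hb), E, fun b hb => (hE b).2 (cen_be φ hb), h2, ?_, ?_⟩
  · intro e he f hf
    have h3 : φ (1, e) * φ (1, f) = φ (1, f) * φ (1, e) := by
      rw [comp, comp]
      simp only [map_one, one_mul, Prod.mk_mul_mk]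
      rw [Subgroup.mem_center_iff.1 ((hE e).1 he) (be φ f), Subgroup.mem_center_iff.1 ((hF f).1 hf) (de φ e)]
    rw [← map_mul, ← map_mul] at h3
    exact congrArg Prod.snd (φ.injective h3)
  · rw [eq_bot_iff]
    rintro x ⟨hx1, hx2⟩
    have h3 : be φ x = 1 := comm_one (be φ) E (fun e he => (hE e).1 he) hx1
    have h4 : de φ x = 1 := comm_one (de φ) F (fun f hf => (hF f).1 hf) hx2
    have h5 : φ (1, x) = 1 := by
      rw [comp, h3, h4]
      simp
    have h6 := (map_eq_one_iff φ φ.injective).1 h5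
    exact Subgroup.mem_bot.2 (congrArg Prod.snd h6)

theorem factor_mem2 (hFac : StFac) {A B : Type} [Group A] [Group B] (φ : MulAut (A × B)) :
    ∃ E F : Subgroup B, (∀ b, b ∈ E ↔ be φ b ∈ Subgroup.center A) ∧
    (∀ b, b ∈ F ↔ de φ b ∈ Subgroup.center B) ∧
    E ⊓ F = Subgroup.center B ∧ E ⊔ F = ⊤ ∧ (E = ⊤ → Cen (ga φ⁻¹)) ∧
    F ∈ {F : Subgroup B | CFac B F ∧ ∃ F1 : Subgroup A, CFac A F1 ∧
      Nonempty (F.map (QuotientGroup.mk' (Subgroup.center B)) ≃*
        F1.map (QuotientGroup.mk' (Subgroup.center A)))} := by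
  obtain ⟨E, F, h1, h2, h3, h4, h5, h6, h7⟩ := hFac A B φ
  obtain ⟨E', F', k1, k2, k3, k4, k5, k6, k7⟩ := hFac B A (sw φ⁻¹)
  refine ⟨E, F, h1, h2, h5, h6, h7, cfac_of φ E F h1 h2 h6, F', cfac_of (sw φ⁻¹) E' F' k1 k2 k6,
    iso φ F F' h2 fun a => ?_⟩
  rw [k2]
  exact Iff.rfl

theorem orb3 (hFac : StFac) (hR : StRfc) (A B : Type) [Group A] [Group B] (hA : Group.FG A)
    (hB : Group.FG B) (hRF : RF B) (hCF : CF2 A B) (H0 : Subgroup (MulAut (A × B)))
    (hH0 : ∀ φ, φ ∈ H0 ↔ Z0 φ) : H0.FiniteIndex := by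
  obtain ⟨N, hN, hNf, hZN, hNF⟩ := exists_N2 hR B hRF _
    (hCF.image fun F => F.map (QuotientGroup.mk' (Subgroup.center B)))
  have := hN
  have := hNf
  have : Finite (B ⧸ N) := Subgroup.finite_quotient_of_finiteIndex
  have := finite_hom A (B ⧸ N) hA
  have := finite_hom B (B ⧸ N) hB
  have key : ∀ χ : MulAut (A × B), (∀ x : A × B, QuotientGroup.mk' N (χ x).2 =
      QuotientGroup.mk' N x.2) → Cen (be χ) ∧ Cen (ga χ⁻¹) := by
    intro χ hχ
    obtain ⟨E, F, hE, hF, hEF, hEF2, hlast, hmem⟩ := factor_mem2 hFac χ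
    have hFN : F ≤ N := by
      intro x hx
      have h1 := hχ (1, x)
      have h2 : de χ x ∈ N := hZN ((hF x).1 hx)
      have h3 : QuotientGroup.mk' N (χ (1, x)).2 = 1 := by
        have : QuotientGroup.mk' N (de χ x) = 1 := by simpa using h2
        exact this
      rw [h3] at h1
      have h4 : QuotientGroup.mk' N x = 1 := h1.symm
      simpa using h4
    have hFZ := hNF F (hEF ▸ inf_le_right) ⟨F, hmem, rfl⟩ hFN
    have hEt : E = ⊤ := by
      rw [← hEF2, hFZ, ← hEF]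
      exact (sup_eq_left.2 inf_le_left).symm
    refine ⟨fun x => (hE x).1 (by rw [hEt]; trivial), hlast hEt⟩
  let f : MulAut (A × B) → (A →* B ⧸ N) × (B →* B ⧸ N) := fun φ =>
    ((QuotientGroup.mk' N).comp (ga φ⁻¹), (QuotientGroup.mk' N).comp (de φ⁻¹))
  refine cos H0 f ?_
  intro ψ φ h
  rw [hH0]
  have h1 : ∀ y : A × B, QuotientGroup.mk' N (ψ⁻¹ y).2 = QuotientGroup.mk' N (φ⁻¹ y).2 := by
    rintro ⟨x, y⟩
    have h2 := DFunLike.congr_fun (congrArg Prod.fst h) x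
    have h3 := DFunLike.congr_fun (congrArg Prod.snd h) y
    have h4 : ((x, y) : A × B) = (x, 1) * (1, y) := by simp
    rw [h4, map_mul, map_mul, Prod.snd_mul, Prod.snd_mul, map_mul, map_mul]
    exact congrArg₂ (· * ·) h2 h3
  have h5 := key (ψ⁻¹ * φ) fun x => by
    have h6 := h1 (φ x)
    rw [MulAut.mul_apply, h6, MulAut.inv_apply_self]
  have h7 := key (ψ⁻¹ * φ)⁻¹ fun x => by
    have h6 := h1 (ψ x)
    rw [mul_inv_rev, inv_inv, MulAut.mul_apply, ← h6, MulAut.inv_apply_self]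
  rw [inv_inv] at h7
  exact ⟨⟨h5.1, h7.2⟩, h7.1, h5.2⟩

/-- **Theorem**, from the jobs -/
theorem main2 (hOut : StOut) (hSwap : StSwap) (hHS : StHS) (hMod : StMod) (hLat : StLat)
    (hKey : StKey) (hExt : StExt) (hSub : StSub) (hFac : StFac) (hR : StRfc)
    (A B : Type) [Group A] [Group B] (hA : Group.FG A) (hB : Group.FG B) (rA : RF A) (rB : RF B)
    (oA : RF (Out A)) (oB : RF (Out B)) (h : CF2 A B ∨ CF2 B A) : RF (Out (A × B)) := by
  apply fin hOut hSwap hHS hMod hLat hKey hExt hSub A B hA hB rA rB oA oB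
  rcases h with h | h
  · exact fun H0 hH0 => orb3 hFac hR A B hA hB rB h H0 hH0
  · exact (hSwap B A).2 fun H0 hH0 => orb3 hFac hR B A hB hA rA h H0 hH0

end Pool.Agent.K7.H41.OP
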