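import Pool.Agent.K7.H41.OP.ISO
import Pool.Agent.K7.H61.OP.ORB

set_option autoImplicit false

/-!
# Project OP: finitely many common direct factors suffice
-/

namespace Pool.Agent.K7.H41.OP

open Pool.Agent.K7.H61.OP

/-- a normal subgroup of finite index that contains the centre and no direct factor from a finite
set -/
theorem exists_N2 (hR : StRfc) (B : Type) [Group B] (hB : RF B)
    (S : Set (Subgroup (B ⧸ Subgroup.center B))) (hD' : S.Finite) :
    ∃ N : Subgroup B, N.Normal ∧ N.FiniteIndex ∧ Subgroup.center B ≤ N ∧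
      ∀ F : Subgroup B, Subgroup.center B ≤ F →
        F.map (QuotientGroup.mk' (Subgroup.center B)) ∈ S → F ≤ N → F = Subgroup.center B := by
  classical
  set Z := Subgroup.center B with hZ
  let π : B →* B ⧸ Z := QuotientGroup.mk' Z
  have hπ : Function.Surjective π := QuotientGroup.mk'_surjective Z
  have hker : π.ker = Z := QuotientGroup.ker_mk' Z
  have h1 : ∀ D : Subgroup (B ⧸ Z), D ≠ ⊥ → ∃ N : Subgroup B, N.Normal ∧ N.FiniteIndex ∧ Z ≤ N ∧
      ∃ b : B, π b ∈ D ∧ b ∉ N := by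
    intro D hD0
    obtain ⟨⟨x, hx⟩, hx1⟩ := (Subgroup.ne_bot_iff_exists_ne_one).1 hD0
    obtain ⟨b, hb⟩ := hπ x
    have hbZ : b ∉ Z := by
      intro h
      rw [← hker, MonoidHom.mem_ker, hb] at h
      exact hx1 (Subtype.ext h)
    obtain ⟨N, h2, h3, h4, h5⟩ := hR B hB b hbZ
    exact ⟨N, h2, h3, h4, b, by rw [hb]; exact hx, h5⟩
  choose! N hN1 hN2 hN3 b hb1 hb2 using h1
  set T : Finset (Subgroup (B ⧸ Z)) := hD'.toFinset.filter fun D => D ≠ ⊥ with hT
  refine ⟨⨅ D : T, N D.1, ?_, ?_, ?_, ?_⟩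
  · exact Subgroup.normal_iInf_normal fun D => hN1 D.1 (Finset.mem_filter.1 D.2).2
  · refine Subgroup.finiteIndex_iInf fun D => hN2 D.1 (Finset.mem_filter.1 D.2).2
  · exact le_iInf fun D => hN3 D.1 (Finset.mem_filter.1 D.2).2
  · intro F hZF hS hFN
    by_contra hne
    have hD1 : F.map π ≠ ⊥ := by
      intro h
      apply hne
      refine le_antisymm ?_ hZF
      intro x hx
      have h2 : π x ∈ F.map π := Subgroup.mem_map_of_mem _ hx
      rw [h, Subgroup.mem_bot] at h2
      have h3 : x ∈ π.ker := h2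
      rwa [hker] at h3
    have hcomap : (F.map π).comap π = F := by
      rw [Subgroup.comap_map_eq, hker, sup_eq_left.2 hZF]
    have hmem : F.map π ∈ T := by
      rw [hT, Finset.mem_filter]
      refine ⟨?_, hD1⟩
      rw [Set.Finite.mem_toFinset]
      exact hS
    have h3 : b (F.map π) ∈ (F.map π).comap π := hb1 _ hD1
    rw [hcomap] at h3
    exact hb2 _ hD1 ((iInf_le (fun D : T => N D.1) ⟨_, hmem⟩) (hFN h3))

theorem orb2 (hFac : StFac) (hR : StRfc) (A B : Type) [Group A] [Group B] (hA : Group.FG A)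
    (hB : Group.FG B) (hRF : RF B) (hCF : CF A B) (H0 : Subgroup (MulAut (A × B)))
    (hH0 : ∀ φ, φ ∈ H0 ↔ Z0 φ) : H0.FiniteIndex := by
  obtain ⟨N, hN, hNf, hZN, hNF⟩ := exists_N2 hR B hRF _ hCF
  have := hN
  have := hNf
  have : Finite (B ⧸ N) := Subgroup.finite_quotient_of_finiteIndex
  have := finite_hom A (B ⧸ N) hA
  have := finite_hom B (B ⧸ N) hB
  have key : ∀ χ : MulAut (A × B), (∀ x : A × B, QuotientGroup.mk' N (χ x).2 =
      QuotientGroup.mk' N x.2) → Cen (be χ) ∧ Cen (ga χ⁻¹) := by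
    intro χ hχ
    obtain ⟨E, F, hE, hF, hEn, hFn, hEF, hEF2, hlast, hmem⟩ := factor_mem hFac χ
    have hFN : F ≤ N := by
      intro x hx
      have h1 := hχ (1, x)
      have h2 : de χ x ∈ N := hZN ((hF x).1 hx)
      have h3 : QuotientGroup.mk' N (χ (1, x)).2 = 1 := by
        have : QuotientGroup.mk' N (de χ x) = 1 := by simpa using h2
        exact this
      rw [h3] at h1
      have h4 : QuotientGroup.mk' N x = 1 := h1.symm
      simpa using h4
    have hFZ := hNF F (hEF ▸ inf_le_right) hmem hFN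
    have hEt : E = ⊤ := by
      rw [← hEF2, hFZ, ← hEF]
      exact (sup_eq_left.2 inf_le_left).symm
    refine ⟨fun x => (hE x).1 (by rw [hEt]; trivial), hlast hEt⟩
  let f : MulAut (A × B) → (A →* B ⧸ N) × (B →* B ⧸ N) := fun φ =>
    ((QuotientGroup.mk' N).comp (ga φ⁻¹), (QuotientGroup.mk' N).comp (de φ⁻¹))
  refine cos H0 f ?_
  intro ψ φ h
  rw [hH0]
  have h1 : ∀ y : A × B, QuotientGroup.mk' N (ψ⁻¹ y).2 = QuotientGroup.mk' N (φ⁻¹ y).2 := by
    rintro ⟨x, y⟩
    have h2 := DFunLike.congr_fun (congrArg Prod.fst h) x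
    have h3 := DFunLike.congr_fun (congrArg Prod.snd h) y
    have h4 : ((x, y) : A × B) = (x, 1) * (1, y) := by simp
    rw [h4, map_mul, map_mul, Prod.snd_mul, Prod.snd_mul, map_mul, map_mul]
    exact congrArg₂ (· * ·) h2 h3
  have h5 := key (ψ⁻¹ * φ) fun x => by
    have h6 := h1 (φ x)
    rw [MulAut.mul_apply, h6, MulAut.inv_apply_self]
  have h7 := key (ψ⁻¹ * φ)⁻¹ fun x => by
    have h6 := h1 (ψ x)
    rw [mul_inv_rev, inv_inv, MulAut.mul_apply, ← h6, MulAut.inv_apply_self]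
  rw [inv_inv] at h7
  exact ⟨⟨h5.1, h7.2⟩, h7.1, h5.2⟩

/-- **Theorem**, from the jobs -/
theorem main (hOut : StOut) (hSwap : StSwap) (hHS : StHS) (hMod : StMod) (hLat : StLat)
    (hKey : StKey) (hExt : StExt) (hSub : StSub) (hFac : StFac) (hR : StRfc)
    (A B : Type) [Group A] [Group B] (hA : Group.FG A) (hB : Group.FG B) (rA : RF A) (rB : RF B)
    (oA : RF (Out A)) (oB : RF (Out B)) (h : CF A B ∨ CF B A) : RF (Out (A × B)) := by
  apply fin hOut hSwap hHS hMod hLat hKey hExt hSub A B hA hB rA rB oA oB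
  rcases h with h | h
  · exact fun H0 hH0 => orb2 hFac hR A B hA hB rB h H0 hH0
  · exact (hSwap B A).2 fun H0 hH0 => orb2 hFac hR B A hB hA rA h H0 hH0

end Pool.Agent.K7.H41.OP
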